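import Pool.Agent.N16.Gen

set_option autoImplicit false

open H584BuDefs H848NJ Pool.Agent.N16.CMDefs

namespace Pool.Agent.Results.MP_b3a7e3_al.GoodCorepresentation

/-- Let `(H, Δ)` be a compact quantum group with a finite-dimensional unitary corepresentation `u`,
not the identity matrix, such that the entries of `u` generate either `H` itself or a C*-algebra
with only finitely many characters.  Let `δ` be a free action of `(H, Δ)` on a unital C*-algebra `A`
that admits a character.  Then there is no equivariant unital `*`-homomorphism from `H` to the
equivariant join of `A` and `H`.  The first alternative covers all non-trivial compact matrix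
quantum groups. -/
theorem result {X Y : Type} (Q : QGroup Y) (F : FreeAction X Q) (hG : HasGoodCorep Q.H Q.Δ)
    (hA : ∃ α : Op X → ℂ, IsChar F.A α) : ¬ HasEquivToJoin Q F :=
  Pool.Agent.N16.Gen.main Q F hG hA

end Pool.Agent.Results.MP_b3a7e3_al.GoodCorepresentation
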